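import Mathlib
import Pool.Agent.Helper555.JDPDefs
import Pool.Agent.Helper555.JDPLemmas
import Pool.Agent.Helper555.JDPBasic

set_option autoImplicit false

namespace Pool.Agent.Results.MP_a8f5d0_lc.LogSupply

open scoped BigOperators
open Classical
open Pool.Agent.Helper555.JDP

section Blocks

variable {m s : ℕ}

/-- Agent number `a` of block `t`. -/
def ag (t : Fin m) (a : Fin (2 * s)) : Fin (m * (2 * s)) := finProdFinEquiv (t, a)

theorem ag_inj {t t' : Fin m} {a a' : Fin (2 * s)} (h : ag t a = ag t' a') : t = t' ∧ a = a' := by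
  have := finProdFinEquiv.injective h
  simpa using this

/-- The profile in which the agents of `D t` want item `t`. -/
noncomputable def prof (D : Fin m → Finset (Fin (2 * s))) : Fin (m * (2 * s)) → Valuation m :=
  fun i => single (finProdFinEquiv.symm i).1
    ((finProdFinEquiv.symm i).2 ∈ D (finProdFinEquiv.symm i).1)

theorem prof_ag (D : Fin m → Finset (Fin (2 * s))) (t : Fin m) (a : Fin (2 * s)) :
    prof D (ag t a) = single t (a ∈ D t) := by
  unfold prof ag
  rw [Equiv.symm_apply_apply]

/-- The agents of block `t` who receive item `t`. -/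
noncomputable def served (ω : Allocation (m * (2 * s)) m) (t : Fin m) : Finset (Fin (2 * s)) :=
  Finset.univ.filter fun a => t ∈ ω (ag t a)

theorem served_le (ω : Allocation (m * (2 * s)) m) (hω : Feasible (fun _ => s) ω) (t : Fin m) :
    (served ω t).card ≤ s := by
  refine le_trans ?_ (hω t)
  refine Finset.card_le_card_of_injOn (ag t) ?_ ?_
  · intro a ha
    simpa [served] using ha
  · intro a _ b _ hab
    exact (ag_inj hab).2

theorem welfare_prof (D : Fin m → Finset (Fin (2 * s))) (ω : Allocation (m * (2 * s)) m) :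
    welfare (prof D) ω = ∑ t, ((D t ∩ served ω t).card : ℝ) := by
  unfold welfare
  rw [← (finProdFinEquiv (m := m) (n := 2 * s)).sum_comp, Fintype.sum_prod_type]
  refine Finset.sum_congr rfl fun t _ => ?_
  have h0 : ∀ a : Fin (2 * s), prof D (finProdFinEquiv (t, a)) (ω (finProdFinEquiv (t, a))) =
      if a ∈ D t ∧ t ∈ ω (ag t a) then (1 : ℝ) else 0 := by
    intro a
    have := prof_ag D t a
    unfold ag at this
    rw [this]
    unfold single ag
    congr 1
  rw [Finset.sum_congr rfl fun a _ => h0 a, Finset.sum_boole]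
  congr 2
  ext a
  simp [served]

theorem le_OPT_prof (D : Fin m → Finset (Fin (2 * s))) (hD : ∀ t, s ≤ (D t).card) :
    ((m : ℝ) * s) ≤ OPT (fun _ => s) (prof D) := by
  have hC : ∀ t, ∃ C ⊆ D t, C.card = s := fun t => Finset.exists_subset_card_eq (hD t)
  choose C hCD hCs using hC
  set ω₀ : Allocation (m * (2 * s)) m := fun i =>
    if (finProdFinEquiv.symm i).2 ∈ C (finProdFinEquiv.symm i).1 then
      {(finProdFinEquiv.symm i).1} else ∅ with hω₀
  have hag : ∀ t a, ω₀ (ag t a) = if a ∈ C t then {t} else ∅ := by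
    intro t a
    simp only [hω₀, ag, Equiv.symm_apply_apply]
  have h := le_OPT (fun _ => s) (prof D) ω₀ (by
      intro j
      refine le_trans (Finset.card_le_card (t := (C j).image (ag j)) ?_)
        (le_trans Finset.card_image_le (hCs j).le)
      intro i hi
      simp only [Finset.mem_filter, Finset.mem_univ, true_and] at hi
      obtain ⟨⟨t, a⟩, rfl⟩ := (finProdFinEquiv (m := m) (n := 2 * s)).surjective i
      have h1 : ω₀ (finProdFinEquiv (t, a)) = if a ∈ C t then {t} else ∅ := hag t a
      rw [h1] at hi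
      by_cases hex : a ∈ C t
      · rw [if_pos hex, Finset.mem_singleton] at hi
        subst hi
        exact Finset.mem_image_of_mem _ hex
      · rw [if_neg hex] at hi
        simp at hi)
  rw [welfare_prof] at h
  refine le_trans ?_ h
  calc ((m : ℝ) * s) = ∑ _t : Fin m, (s : ℝ) := by simp
    _ ≤ ∑ t, ((D t ∩ served ω₀ t).card : ℝ) := by
        refine Finset.sum_le_sum fun t _ => ?_
        norm_cast
        refine le_trans (hCs t).ge (Finset.card_le_card fun a ha => ?_)
        simp only [served, Finset.mem_inter, Finset.mem_filter, Finset.mem_univ, true_and]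
        refine ⟨hCD t ha, ?_⟩
        rw [hag, if_pos ha]
        simp

end Blocks

section Averaging

/-- Resampling one coordinate of a uniformly random function. -/
theorem resample {ι β : Type} [Fintype ι] [DecidableEq ι] [Fintype β] (t : ι)
    (F : (ι → β) → ℝ) :
    ∑ σ : ι → β, ∑ x : β, F (Function.update σ t x) = Fintype.card β * ∑ σ : ι → β, F σ := by
  rw [← Fintype.sum_prod_type' (f := fun (σ : ι → β) (x : β) => F (Function.update σ t x))]
  have h := Equiv.sum_comp (Function.Involutive.toPerm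
    (fun q : (ι → β) × β => (Function.update q.1 t q.2, q.1 t)) (by
      intro q
      ext1
      · funext k
        by_cases hk : k = t
        · subst hk; simp
        · simp [hk]
      · simp)) (fun q : (ι → β) × β => F q.1)
  have h2 : ∑ q : (ι → β) × β, F (Function.update q.1 t q.2) = ∑ q : (ι → β) × β, F q.1 := by
    rw [← h]
    rfl
  rw [h2, Fintype.sum_prod_type]
  simp [Finset.mul_sum]

end Averaging

/-- The `s`-subsets of a block. -/
abbrev Half (s : ℕ) : Type := {S : Finset (Fin (2 * s)) // S.card = s}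

theorem card_half (s : ℕ) : Fintype.card (Half s) = Nat.centralBinom s := by
  rw [Fintype.card_subtype, card_subsets]

/-- The active agents: all of a flagged block, and the chosen `s`-subset of the other blocks. -/
def act {m s : ℕ} (σ : Fin m → Bool × Half s) (t : Fin m) : Finset (Fin (2 * s)) :=
  if (σ t).1 = true then Finset.univ else (σ t).2.1

/-- All other blocks respect the supply and block `t` serves nearly all of `S`. -/
def Egood {m s : ℕ} (t : Fin m) (S : Finset (Fin (2 * s))) : Set (Allocation (m * (2 * s)) m) :=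
  {ω | (∀ b, b ≠ t → (served ω b).card ≤ s) ∧ 64 * (S \ served ω t).card ≤ s}

/-- Block `t` is the only one that violates the supply. -/
def Ebad {m s : ℕ} (t : Fin m) : Set (Allocation (m * (2 * s)) m) :=
  {ω | (∀ b, b ≠ t → (served ω b).card ≤ s) ∧ s < (served ω t).card}

section Core

variable {m s : ℕ} {V : Set (Valuation m)} {ε α β : ℝ}
  {M : (Fin (m * (2 * s)) → Valuation m) → PMF (Allocation (m * (2 * s)) m)}

/-- Probability of an event under the profile given by `σ`. -/
noncomputable def P (M : (Fin (m * (2 * s)) → Valuation m) → PMF (Allocation (m * (2 * s)) m))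
    (σ : Fin m → Bool × Half s) (E : Set (Allocation (m * (2 * s)) m)) : ℝ :=
  Pr (M (prof (act σ))) E

theorem step_privacy (hV : ∀ (b : Fin m) (p : Prop), single b p ∈ V)
    (hJP : JointlyPrivate V ε M) (σ : Fin m → Bool × Half s) (t : Fin m) (S : Half s) :
    P M (Function.update σ t (false, S)) (Egood t S.1) ≤
      Real.exp (ε * s) * P M (Function.update σ t (true, S)) (Egood t S.1) := by
  unfold P
  have hG : ((Finset.univ \ S.1).image (ag (m := m) t)).card = s := by
    rw [Finset.card_image_of_injective _ (fun a b hab => (ag_inj hab).2),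
      Finset.card_sdiff_of_subset (Finset.subset_univ S.1), Finset.card_univ, Fintype.card_fin, S.2]
    omega
  have hne : ∀ (ω ω' : Allocation (m * (2 * s)) m),
      (∀ k, k ∉ (Finset.univ \ S.1).image (ag (m := m) t) → ω k = ω' k) →
      (∀ b, b ≠ t → served ω b = served ω' b) ∧ S.1 \ served ω t = S.1 \ served ω' t := by
    intro ω ω' h
    constructor
    · intro b hb
      unfold served
      ext a
      simp only [Finset.mem_filter, Finset.mem_univ, true_and]
      rw [h (ag b a) (by
        intro hmem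
        obtain ⟨c, _, hc⟩ := Finset.mem_image.mp hmem
        exact hb (ag_inj hc).1.symm)]
    · unfold served
      ext a
      simp only [Finset.mem_sdiff, Finset.mem_filter, Finset.mem_univ, true_and]
      refine and_congr_right fun ha => ?_
      rw [h (ag t a) (by
        intro hmem
        obtain ⟨c, hc1, hc⟩ := Finset.mem_image.mp hmem
        rw [(ag_inj hc).2] at hc1
        simp [ha] at hc1)]
  have key := group_privacy hJP ((Finset.univ \ S.1).image (ag (m := m) t))
    (prof (act (Function.update σ t (false, S)))) (prof (act (Function.update σ t (true, S))))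
    (fun k => hV _ _) (fun k => hV _ _) (by
      intro k hk
      obtain ⟨⟨b, a⟩, rfl⟩ := (finProdFinEquiv (m := m) (n := 2 * s)).surjective k
      have e1 := prof_ag (act (Function.update σ t (false, S))) b a
      have e2 := prof_ag (act (Function.update σ t (true, S))) b a
      unfold ag at e1 e2
      rw [e1, e2]
      congr 1
      by_cases hb : b = t
      · subst hb
        have ha : a ∈ S.1 := by
          by_contra ha
          exact hk (Finset.mem_image_of_mem _ (by simp [ha]))
        simp [act, ha]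
      · simp [act, Function.update_of_ne hb]) (Egood t S.1) (by
      intro ω ω' hω h0
      obtain ⟨h1, h2⟩ := hne ω ω' hω
      refine ⟨fun b hb => ?_, ?_⟩
      · rw [← h1 b hb]; exact h0.1 b hb
      · rw [← h2]; exact h0.2)
  rw [hG] at key
  exact key

theorem step_count (σ : Fin m → Bool × Half s) (t : Fin m) :
    ∑ S : Half s, P M (Function.update σ t (true, S)) (Egood t S.1) ≤
      ∑ S : Half s, P M (Function.update σ t (true, S)) (Ebad t) + (5 / 4 : ℝ) ^ s := by
  by_cases hne : Nonempty (Half s)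
  swap
  · rw [not_nonempty_iff] at hne
    simp
    positivity
  obtain ⟨S₀⟩ := hne
  have hsame : ∀ S : Half s, act (Function.update σ t (true, S)) =
      act (Function.update σ t (true, S₀)) := by
    intro S
    funext b
    by_cases hb : b = t
    · subst hb; simp [act]
    · simp [act, Function.update_of_ne hb]
  set μ := M (prof (act (Function.update σ t (true, S₀)))) with hμ
  have hP : ∀ (S : Half s) (E : Set (Allocation (m * (2 * s)) m)),
      P M (Function.update σ t (true, S)) E = Pr μ E := by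
    intro S E
    unfold P
    rw [hsame S]
  simp_rw [hP]
  rw [sum_Pr]
  have hbad : ∑ S : Half s, Pr μ (Ebad t) =
      ∑ ω, (μ ω).toReal * (if ω ∈ Ebad t then (Fintype.card (Half s) : ℝ) else 0) := by
    rw [Finset.sum_const, nsmul_eq_mul, Pr_eq, Finset.mul_sum, Finset.card_univ]
    refine Finset.sum_congr rfl fun ω _ => ?_
    split_ifs <;> ring
  have hone : (5 / 4 : ℝ) ^ s = ∑ ω, (μ ω).toReal * (5 / 4 : ℝ) ^ s := by
    rw [← Finset.sum_mul, sum_toReal, one_mul]
  rw [hbad, hone, ← Finset.sum_add_distrib]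
  refine Finset.sum_le_sum fun ω _ => ?_
  rw [← mul_add]
  refine mul_le_mul_of_nonneg_left ?_ ENNReal.toReal_nonneg
  by_cases h1 : ∀ b, b ≠ t → (served ω b).card ≤ s
  · by_cases h2 : s < (served ω t).card
    · have : ω ∈ Ebad t := ⟨h1, h2⟩
      rw [if_pos this]
      have h3 : ((Finset.univ.filter fun S : Half s => ω ∈ Egood t S.1).card : ℝ) ≤
          Fintype.card (Half s) := by
        exact_mod_cast Finset.card_le_univ _
      have h4 : (0 : ℝ) ≤ (5 / 4 : ℝ) ^ s := by positivity
      linarith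
    · have h3 := near_count s (served ω t) (not_lt.mp h2)
      have h4 : ((Finset.univ.filter fun S : Half s => ω ∈ Egood t S.1).card : ℝ) ≤
          ((Finset.univ.filter fun S : Finset (Fin (2 * s)) =>
            S.card = s ∧ 64 * (S \ served ω t).card ≤ s).card : ℝ) := by
        norm_cast
        refine Finset.card_le_card_of_injOn (fun S => S.1) ?_ ?_
        · intro S hS
          simp only [Finset.coe_filter, Finset.mem_univ, true_and, Set.mem_ofPred_eq] at hS ⊢
          exact ⟨S.2, hS.2⟩
        · intro S _ T _ hST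
          exact Subtype.ext hST
      have h5 : (0 : ℝ) ≤ if ω ∈ Ebad t then (Fintype.card (Half s) : ℝ) else 0 := by
        split_ifs <;> positivity
      linarith
  · have h3 : (Finset.univ.filter fun S : Half s => ω ∈ Egood t S.1) = ∅ := by
      ext S
      simp only [Finset.mem_filter, Finset.mem_univ, true_and, Finset.notMem_empty, iff_false]
      intro hS
      exact h1 hS.1
    rw [h3]
    have h5 : (0 : ℝ) ≤ if ω ∈ Ebad t then (Fintype.card (Half s) : ℝ) else 0 := by
      split_ifs <;> positivity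
    have h4 : (0 : ℝ) ≤ (5 / 4 : ℝ) ^ s := by positivity
    simp only [Finset.card_empty, Nat.cast_zero]
    linarith

/-- Success event of the mechanism at profile `v`. -/
def Succ (α : ℝ) (v : Fin (m * (2 * s)) → Valuation m) : Set (Allocation (m * (2 * s)) m) :=
  {ω | Feasible (fun _ => s) ω ∧ OPT (fun _ => s) v - α * ((m * (2 * s) : ℕ) : ℝ) ≤ welfare v ω}

theorem step_bad (σ : Fin m → Bool × Half s) (hβ : 1 - β ≤ P M σ (Succ α (prof (act σ)))) :
    ∑ t, (if (σ t).1 = true then P M σ (Ebad t) else 0) ≤ β := by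
  have h1 : ∑ t, (if (σ t).1 = true then P M σ (Ebad t) else 0) ≤
      ∑ t : Fin m, P M σ (Ebad t) := by
    refine Finset.sum_le_sum fun t _ => ?_
    split_ifs
    · exact le_refl _
    · exact Pr_nonneg _ _
  have h2 : ∑ t : Fin m, P M σ (Ebad t) ≤ P M σ (Succ α (prof (act σ)))ᶜ := by
    unfold P
    rw [sum_Pr, Pr_eq]
    refine Finset.sum_le_sum fun ω _ => ?_
    by_cases hex : ∃ t, ω ∈ Ebad (m := m) (s := s) t
    · obtain ⟨t, ht⟩ := hex
      have h3 : (Finset.univ.filter fun t : Fin m => ω ∈ Ebad t) = {t} := by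
        ext t'
        simp only [Finset.mem_filter, Finset.mem_univ, true_and, Finset.mem_singleton]
        constructor
        · intro ht'
          by_contra hne
          have h4 := ht.1 t' hne
          have h5 := ht'.2
          omega
        · rintro rfl; exact ht
      have h4 : ω ∈ (Succ α (prof (act σ)))ᶜ := by
        intro hs
        have h5 := served_le ω hs.1 t
        have h6 := ht.2
        omega
      rw [h3, if_pos h4]
      simp
    · have h3 : (Finset.univ.filter fun t : Fin m => ω ∈ Ebad t) = ∅ := by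
        ext t'
        simp only [Finset.mem_filter, Finset.mem_univ, true_and, Finset.notMem_empty, iff_false]
        exact fun h => hex ⟨t', h⟩
      rw [h3]
      simp only [Finset.card_empty, Nat.cast_zero, mul_zero]
      split_ifs
      · exact ENNReal.toReal_nonneg
      · exact le_refl _
  have h3 : P M σ (Succ α (prof (act σ)))ᶜ = 1 - P M σ (Succ α (prof (act σ))) := Pr_compl _ _
  linarith

/-- At a successful outcome, most unflagged blocks are well served. -/
theorem few_missed (hs : 0 < s) (hα : α ≤ 1 / 1000) (σ : Fin m → Bool × Half s)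
    (ω : Allocation (m * (2 * s)) m) (hω : ω ∈ Succ α (prof (act σ))) :
    ((Finset.univ.filter fun t : Fin m => (σ t).1 = false).card : ℝ) - m / 4 ≤
      ((Finset.univ.filter fun t : Fin m => (σ t).1 = false ∧ ω ∈ Egood t (σ t).2.1).card : ℝ) := by
  have hsR : (0 : ℝ) < s := by exact_mod_cast hs
  obtain ⟨hf, hw⟩ := hω
  rw [welfare_prof] at hw
  have hD : ∀ t, s ≤ (act σ t).card := by
    intro t
    unfold act
    split_ifs
    · rw [Finset.card_univ, Fintype.card_fin]; omega
    · exact (σ t).2.2.ge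
  have hopt := le_OPT_prof (act σ) hD
  set F := Finset.univ.filter fun t : Fin m => (σ t).1 = false with hF
  set A := Finset.univ.filter fun t : Fin m => (σ t).1 = false ∧ ω ∈ Egood t (σ t).2.1 with hA
  set B := F \ A with hB
  have hAF : A ⊆ F := by
    intro t ht
    simp only [hA, hF, Finset.mem_filter, Finset.mem_univ, true_and] at ht ⊢
    exact ht.1
  have hcard : (F.card : ℝ) = A.card + B.card := by
    have := Finset.card_sdiff_add_card_eq_card hAF
    rw [← hB] at this
    have h2 : (F.card : ℝ) = ((B.card + A.card : ℕ) : ℝ) := by rw [this]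
    rw [h2]; push_cast; ring
  -- each block contributes at most s, and a missed block loses more than s / 64
  have hblock : ∀ t, ((act σ t ∩ served ω t).card : ℝ) ≤
      s - (if t ∈ B then (s : ℝ) / 64 else 0) := by
    intro t
    have h1 : (act σ t ∩ served ω t).card ≤ s :=
      le_trans (Finset.card_le_card Finset.inter_subset_right) (served_le ω hf t)
    split_ifs with htB
    · simp only [hB, hF, hA, Finset.mem_sdiff, Finset.mem_filter, Finset.mem_univ, true_and,
        not_and] at htB
      obtain ⟨h2, h3⟩ := htB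
      have h4 := h3 h2
      have h5 : ¬ 64 * ((σ t).2.1 \ served ω t).card ≤ s := by
        intro h6
        exact h4 ⟨fun b _ => served_le ω hf b, h6⟩
      have h6 : act σ t = (σ t).2.1 := by unfold act; rw [h2]; simp
      have h7 := Finset.card_sdiff_add_card_inter (σ t).2.1 (served ω t)
      rw [(σ t).2.2] at h7
      rw [h6]
      have h8 : (s : ℝ) < 64 * (((σ t).2.1 \ served ω t).card : ℝ) := by
        exact_mod_cast not_le.mp h5
      have h9 : (((σ t).2.1 \ served ω t).card : ℝ) + (((σ t).2.1 ∩ served ω t).card : ℝ) = s := by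
        exact_mod_cast h7
      linarith
    · rw [sub_zero]; exact_mod_cast h1
  have hsum : ∑ t, ((act σ t ∩ served ω t).card : ℝ) ≤ m * s - B.card * (s / 64) := by
    calc ∑ t, ((act σ t ∩ served ω t).card : ℝ) ≤
        ∑ t, ((s : ℝ) - (if t ∈ B then (s : ℝ) / 64 else 0)) :=
          Finset.sum_le_sum fun t _ => hblock t
      _ = m * s - B.card * (s / 64) := by
          rw [Finset.sum_sub_distrib, Finset.sum_const, nsmul_eq_mul, Finset.card_univ,
            Fintype.card_fin, Finset.sum_ite_mem, Finset.univ_inter, Finset.sum_const,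
            nsmul_eq_mul]
  have h1 : (B.card : ℝ) * (s / 64) ≤ α * ((m * (2 * s) : ℕ) : ℝ) := by linarith
  have h2 : α * ((m * (2 * s) : ℕ) : ℝ) ≤ 1 / 1000 * ((m * (2 * s) : ℕ) : ℝ) :=
    mul_le_mul_of_nonneg_right hα (by positivity)
  have h3 : ((m * (2 * s) : ℕ) : ℝ) = m * (2 * s) := by push_cast; ring
  rw [h3] at h1 h2
  have h4 : (B.card : ℝ) * s ≤ (m / 4) * s := by
    have : (0 : ℝ) ≤ m * s := by positivity
    nlinarith
  have h5 : (B.card : ℝ) ≤ m / 4 := le_of_mul_le_mul_right h4 hsR
  linarith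

theorem step_good (hs : 0 < s) (hα : α ≤ 1 / 1000) (hβ1 : β ≤ 1) (σ : Fin m → Bool × Half s)
    (hβ : 1 - β ≤ P M σ (Succ α (prof (act σ)))) :
    (1 - β) * (((Finset.univ.filter fun t : Fin m => (σ t).1 = false).card : ℝ) - m / 4) ≤
      ∑ t, (if (σ t).1 = false then P M σ (Egood t (σ t).2.1) else 0) := by
  set c : ℝ := ((Finset.univ.filter fun t : Fin m => (σ t).1 = false).card : ℝ) - m / 4 with hc
  have hnn : 0 ≤ ∑ t, (if (σ t).1 = false then P M σ (Egood t (σ t).2.1) else 0) := by
    refine Finset.sum_nonneg fun t _ => ?_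
    split_ifs
    · exact Pr_nonneg _ _
    · exact le_refl _
  by_cases hc0 : c ≤ 0
  · have : (1 - β) * c ≤ 0 := mul_nonpos_of_nonneg_of_nonpos (by linarith) hc0
    linarith
  push Not at hc0
  have h1 : (1 - β) * c ≤ P M σ (Succ α (prof (act σ))) * c :=
    mul_le_mul_of_nonneg_right hβ hc0.le
  refine le_trans h1 ?_
  rw [← Finset.sum_filter]
  unfold P
  rw [sum_Pr, Pr_eq, Finset.sum_mul]
  refine Finset.sum_le_sum fun ω _ => ?_
  by_cases hω : ω ∈ Succ α (prof (act σ))
  · rw [if_pos hω]
    refine mul_le_mul_of_nonneg_left ?_ ENNReal.toReal_nonneg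
    refine le_trans (few_missed hs hα σ ω hω) (le_of_eq ?_)
    congr 2
    ext t
    simp
  · rw [if_neg hω, zero_mul]
    exact mul_nonneg ENNReal.toReal_nonneg (by positivity)

/-- The main inequality. -/
theorem core (hs : 0 < s) (hV : ∀ (b : Fin m) (p : Prop), single b p ∈ V)
    (hJP : JointlyPrivate V ε M) (hα : α ≤ 1 / 1000) (hβ1 : β ≤ 1)
    (hgood : ∀ v : Fin (m * (2 * s)) → Valuation m, (∀ i, v i ∈ V) →
      1 - β ≤ Pr (M v) (Succ α v)) :
    (Nat.centralBinom s : ℝ) * (1 - β) * m / 2 ≤
      Real.exp (ε * s) * (2 * Nat.centralBinom s * β + m * (5 / 4 : ℝ) ^ s) := by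
  set N : ℝ := (Nat.centralBinom s : ℝ) with hN
  have hN0 : 0 < N := by rw [hN]; exact_mod_cast Nat.centralBinom_pos s
  have hcardβ : (Fintype.card (Bool × Half s) : ℝ) = 2 * N := by
    rw [Fintype.card_prod, card_half, Fintype.card_bool]; push_cast; rfl
  set Q : ℝ := (Fintype.card (Fin m → Bool × Half s) : ℝ) with hQ
  have hQ0 : 0 < Q := by
    rw [hQ]
    have : 0 < Fintype.card (Fin m → Bool × Half s) := by
      rw [Fintype.card_fun, Fintype.card_fin]
      refine pow_pos ?_ _
      rw [Fintype.card_prod, card_half, Fintype.card_bool]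
      have := Nat.centralBinom_pos s
      omega
    exact_mod_cast this
  have hsucc : ∀ σ : Fin m → Bool × Half s, 1 - β ≤ P M σ (Succ α (prof (act σ))) :=
    fun σ => hgood _ (fun i => hV _ _)
  set G : Fin m → (Fin m → Bool × Half s) → ℝ :=
    fun t σ => if (σ t).1 = false then P M σ (Egood t (σ t).2.1) else 0 with hG
  set H : Fin m → (Fin m → Bool × Half s) → ℝ :=
    fun t σ => if (σ t).1 = true then P M σ (Ebad t) else 0 with hH
  set e : ℝ := Real.exp (ε * s) with he
  have he0 : 0 < e := Real.exp_pos _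
  -- per coordinate inequality
  have hcoord : ∀ t : Fin m, 2 * N * ∑ σ, G t σ ≤ e * (2 * N * ∑ σ, H t σ + Q * (5 / 4 : ℝ) ^ s) := by
    intro t
    have h1 := resample t (G t)
    have h2 := resample t (H t)
    rw [hcardβ] at h1 h2
    rw [← h1, ← h2]
    have h3 : ∀ σ : Fin m → Bool × Half s, ∑ x : Bool × Half s, G t (Function.update σ t x) =
        ∑ S : Half s, P M (Function.update σ t (false, S)) (Egood t S.1) := by
      intro σ
      rw [Fintype.sum_prod_type]
      simp [hG]
    have h4 : ∀ σ : Fin m → Bool × Half s, ∑ x : Bool × Half s, H t (Function.update σ t x) =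
        ∑ S : Half s, P M (Function.update σ t (true, S)) (Ebad t) := by
      intro σ
      rw [Fintype.sum_prod_type]
      simp [hH]
    have h5 : Q * (5 / 4 : ℝ) ^ s = ∑ _σ : Fin m → Bool × Half s, (5 / 4 : ℝ) ^ s := by
      rw [Finset.sum_const, nsmul_eq_mul, Finset.card_univ]
    rw [h5, ← Finset.sum_add_distrib, Finset.mul_sum]
    refine Finset.sum_le_sum fun σ _ => ?_
    rw [h3, h4]
    calc ∑ S : Half s, P M (Function.update σ t (false, S)) (Egood t S.1)
        ≤ ∑ S : Half s, e * P M (Function.update σ t (true, S)) (Egood t S.1) :=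
          Finset.sum_le_sum fun S _ => step_privacy hV hJP σ t S
      _ = e * ∑ S : Half s, P M (Function.update σ t (true, S)) (Egood t S.1) := by
          rw [Finset.mul_sum]
      _ ≤ e * (∑ S : Half s, P M (Function.update σ t (true, S)) (Ebad t) + (5 / 4 : ℝ) ^ s) :=
          mul_le_mul_of_nonneg_left (step_count σ t) he0.le
  -- sum over blocks
  have hsum : 2 * N * ∑ t, ∑ σ, G t σ ≤
      e * (2 * N * ∑ t, ∑ σ, H t σ + m * (Q * (5 / 4 : ℝ) ^ s)) := by
    rw [Finset.mul_sum]
    calc ∑ t, 2 * N * ∑ σ, G t σ ≤ ∑ t, e * (2 * N * ∑ σ, H t σ + Q * (5 / 4 : ℝ) ^ s) :=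
          Finset.sum_le_sum fun t _ => hcoord t
      _ = e * (2 * N * ∑ t, ∑ σ, H t σ + m * (Q * (5 / 4 : ℝ) ^ s)) := by
          rw [← Finset.mul_sum, Finset.sum_add_distrib, Finset.sum_const, nsmul_eq_mul,
            Finset.card_univ, Fintype.card_fin, ← Finset.mul_sum]
  have hHb : ∑ t, ∑ σ, H t σ ≤ Q * β := by
    rw [Finset.sum_comm]
    calc ∑ σ, ∑ t, H t σ ≤ ∑ _σ : Fin m → Bool × Half s, β :=
          Finset.sum_le_sum fun σ _ => step_bad σ (hsucc σ)
      _ = Q * β := by rw [Finset.sum_const, nsmul_eq_mul, Finset.card_univ]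
  have hflag : ∑ σ : Fin m → Bool × Half s,
      ((Finset.univ.filter fun t : Fin m => (σ t).1 = false).card : ℝ) = m * Q / 2 := by
    have h1 : ∀ σ : Fin m → Bool × Half s,
        ((Finset.univ.filter fun t : Fin m => (σ t).1 = false).card : ℝ) =
          ∑ t, if (σ t).1 = false then (1 : ℝ) else 0 := by
      intro σ; rw [Finset.sum_boole]
    simp_rw [h1]
    rw [Finset.sum_comm]
    have h2 : ∀ t : Fin m, ∑ σ : Fin m → Bool × Half s, (if (σ t).1 = false then (1 : ℝ) else 0)
        = Q / 2 := by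
      intro t
      have h3 := resample t (fun σ : Fin m → Bool × Half s =>
        if (σ t).1 = false then (1 : ℝ) else 0)
      rw [hcardβ] at h3
      have h4 : ∀ σ : Fin m → Bool × Half s, ∑ x : Bool × Half s,
          (if ((Function.update σ t x) t).1 = false then (1 : ℝ) else 0) = N := by
        intro σ
        rw [Fintype.sum_prod_type]
        simp [hN, Nat.centralBinom]
      simp_rw [h4] at h3
      rw [Finset.sum_const, nsmul_eq_mul, Finset.card_univ] at h3
      have h5 : N * (2 * ∑ σ : Fin m → Bool × Half s,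
          (if (σ t).1 = false then (1 : ℝ) else 0)) = N * Q := by
        rw [← hQ] at h3
        linarith
      have h6 := mul_left_cancel₀ hN0.ne' h5
      linarith
    rw [Finset.sum_congr rfl fun t _ => h2 t, Finset.sum_const, nsmul_eq_mul, Finset.card_univ,
      Fintype.card_fin]
    ring
  have hGb : (1 - β) * (m * Q / 4) ≤ ∑ t, ∑ σ, G t σ := by
    rw [Finset.sum_comm]
    calc (1 - β) * (m * Q / 4)
        = ∑ σ : Fin m → Bool × Half s, (1 - β) *
            (((Finset.univ.filter fun t : Fin m => (σ t).1 = false).card : ℝ) - m / 4) := by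
          rw [← Finset.mul_sum, Finset.sum_sub_distrib, hflag, Finset.sum_const, nsmul_eq_mul,
            Finset.card_univ, ← hQ]
          ring
      _ ≤ ∑ σ, ∑ t, G t σ := Finset.sum_le_sum fun σ _ => step_good hs hα hβ1 σ (hsucc σ)
  have hfin : 2 * N * ((1 - β) * (m * Q / 4)) ≤
      e * (2 * N * (Q * β) + m * (Q * (5 / 4 : ℝ) ^ s)) := by
    calc 2 * N * ((1 - β) * (m * Q / 4)) ≤ 2 * N * ∑ t, ∑ σ, G t σ :=
          mul_le_mul_of_nonneg_left hGb (by positivity)
      _ ≤ e * (2 * N * ∑ t, ∑ σ, H t σ + m * (Q * (5 / 4 : ℝ) ^ s)) := hsum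
      _ ≤ e * (2 * N * (Q * β) + m * (Q * (5 / 4 : ℝ) ^ s)) := by
          refine mul_le_mul_of_nonneg_left ?_ he0.le
          have := mul_le_mul_of_nonneg_left hHb (by positivity : (0 : ℝ) ≤ 2 * N)
          linarith
  have hfin2 : Q * (N * (1 - β) * m / 2) ≤ Q * (e * (2 * N * β + m * (5 / 4 : ℝ) ^ s)) := by
    calc Q * (N * (1 - β) * m / 2) = 2 * N * ((1 - β) * (m * Q / 4)) := by ring
      _ ≤ e * (2 * N * (Q * β) + m * (Q * (5 / 4 : ℝ) ^ s)) := hfin
      _ = Q * (e * (2 * N * β + m * (5 / 4 : ℝ) ^ s)) := by ring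
  exact le_of_mul_le_mul_left hfin2 hQ0

end Core

theorem not_suffices (V : ∀ m : ℕ, Set (Valuation m))
    (hV : ∀ (m : ℕ) (b : Fin m) (p : Prop), single b p ∈ V m)
    (ε α β : ℝ) (hα : α ≤ 1 / 1000) (hβ0 : 0 < β) (hβ : β < 1) (m s : ℕ) (hs : 0 < s)
    (hm : 8 * Real.exp (ε * s) / (1 - β) < m)
    (hsmall : Real.exp (ε * s) * (5 / 4 : ℝ) ^ s ≤ (1 - β) / 4 * Nat.centralBinom s) :
    ¬ WeaklySuffices V (m * (2 * s)) m ε α β s := by
  rintro ⟨M, hM⟩
  obtain ⟨hJP, hgood⟩ := hM (fun _ => s) (fun _ => le_refl s)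
  have h1 := core hs (hV m) hJP hα hβ.le hgood
  have hN0 : (0 : ℝ) < Nat.centralBinom s := by exact_mod_cast Nat.centralBinom_pos s
  set N : ℝ := (Nat.centralBinom s : ℝ) with hN
  set e : ℝ := Real.exp (ε * s) with he
  have he0 : 0 < e := Real.exp_pos _
  have hb : 0 < 1 - β := by linarith
  have h2 : (m : ℝ) * (e * (5 / 4 : ℝ) ^ s) ≤ m * ((1 - β) / 4 * N) :=
    mul_le_mul_of_nonneg_left hsmall (by positivity)
  have h3 : 8 * e < m * (1 - β) := by
    rwa [div_lt_iff₀ hb] at hm
  have h4 : N * (1 - β) * m / 2 ≤ 2 * N * β * e + m * ((1 - β) / 4 * N) := by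
    calc N * (1 - β) * m / 2 ≤ e * (2 * N * β + m * (5 / 4 : ℝ) ^ s) := h1
      _ = 2 * N * β * e + m * (e * (5 / 4 : ℝ) ^ s) := by ring
      _ ≤ _ := by linarith
  have h5 : N * ((1 - β) * m) ≤ N * (8 * β * e) := by nlinarith
  have h6 : (1 - β) * m ≤ 8 * β * e := le_of_mul_le_mul_left h5 hN0
  nlinarith

theorem lower (V : ∀ m : ℕ, Set (Valuation m))
    (hV : ∀ (m : ℕ) (b : Fin m) (p : Prop), single b p ∈ V m)
    (ε α β : ℝ) (hε0 : 0 < ε) (hε : ε < 1) (hα0 : 0 < α) (hα : α ≤ 1 / 1000) (hβ0 : 0 < β)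
    (hβ : β < 1) : ∃ m₀ : ℕ, ∀ m : ℕ, m₀ ≤ m → ∃ n : ℕ, n ≤ m ^ 2 ∧
      Real.log m / (2 * ε) ≤ sStarWeak V n m ε α β := by
  obtain ⟨s₀, hs₀, hsmall⟩ := eventually_small ε ((1 - β) / 4) hε (by linarith)
  have hb : 0 < 1 - β := by linarith
  -- eventually `log m / (2 ε) ≥ s₀`, `sqrt m > 8 / (1 - β)` and `log m / ε ≤ m`
  have hlog : Filter.Tendsto (fun m : ℕ => Real.log m / (2 * ε)) Filter.atTop Filter.atTop :=
    (Real.tendsto_log_atTop.comp tendsto_natCast_atTop_atTop).atTop_div_const (by positivity)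
  have hsq : Filter.Tendsto (fun m : ℕ => Real.sqrt m) Filter.atTop Filter.atTop :=
    Real.tendsto_sqrt_atTop.comp tendsto_natCast_atTop_atTop
  have hlit : ∀ᶠ m : ℕ in Filter.atTop, Real.log m ≤ ε * m := by
    have h1 : Filter.Tendsto (fun x : ℝ => Real.log x / x) Filter.atTop (nhds 0) := by
      simpa using Real.tendsto_pow_log_div_mul_add_atTop 1 0 1 one_ne_zero
    have h2 := (h1.comp tendsto_natCast_atTop_atTop).eventually (gt_mem_nhds hε0)
    filter_upwards [h2, Filter.eventually_gt_atTop 0] with m hm hm0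
    have hmR : (0 : ℝ) < m := by exact_mod_cast hm0
    simp only [Function.comp] at hm
    rw [div_lt_iff₀ hmR] at hm
    exact hm.le
  have hall := (hlog.eventually_ge_atTop (s₀ : ℝ)).and
    ((hsq.eventually_gt_atTop (8 / (1 - β))).and (hlit.and (Filter.eventually_gt_atTop 0)))
  obtain ⟨m₀, hm₀⟩ := Filter.eventually_atTop.mp hall
  refine ⟨m₀, fun m hm => ?_⟩
  obtain ⟨h1, h2, h3, h4⟩ := hm₀ m hm
  have hmR : (0 : ℝ) < m := by exact_mod_cast h4
  set s : ℕ := ⌊Real.log m / (2 * ε)⌋₊ with hs
  have hlog0 : 0 ≤ Real.log m / (2 * ε) := le_trans (by positivity) h1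
  have hsle : (s : ℝ) ≤ Real.log m / (2 * ε) := Nat.floor_le hlog0
  have hss : s₀ ≤ s := Nat.le_floor h1
  have hs0 : 0 < s := lt_of_lt_of_le hs₀ hss
  have hexp : Real.exp (ε * s) ≤ Real.sqrt m := by
    have h5 : ε * s ≤ Real.log m / 2 := by
      calc ε * s ≤ ε * (Real.log m / (2 * ε)) := mul_le_mul_of_nonneg_left hsle hε0.le
        _ = Real.log m / 2 := by field_simp
    calc Real.exp (ε * s) ≤ Real.exp (Real.log m / 2) := Real.exp_le_exp.mpr h5
      _ = Real.sqrt m := by
          rw [Real.exp_half, Real.exp_log hmR]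
  refine ⟨m * (2 * s), ?_, ?_⟩
  · have h5 : (2 * s : ℝ) ≤ m := by
      calc (2 * s : ℝ) ≤ 2 * (Real.log m / (2 * ε)) := by linarith
        _ = Real.log m / ε := by field_simp
        _ ≤ m := by rw [div_le_iff₀ hε0]; linarith
    have h6 : 2 * s ≤ m := by exact_mod_cast h5
    calc m * (2 * s) ≤ m * m := Nat.mul_le_mul_left m h6
      _ = m ^ 2 := by ring
  · have hns : ¬ WeaklySuffices V (m * (2 * s)) m ε α β s := by
      refine not_suffices V hV ε α β hα hβ0 hβ m s hs0 ?_ (hsmall s hss)
      rw [div_lt_iff₀ hb]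
      rw [div_lt_iff₀ hb] at h2
      have hsm : Real.sqrt m * Real.sqrt m = m := Real.mul_self_sqrt hmR.le
      have hsm0 : 0 < Real.sqrt m := Real.sqrt_pos.mpr hmR
      nlinarith
    have h5 := lt_sStarWeak hε0.le hα0.le hβ0.le hns
    have h6 : Real.log m / (2 * ε) < s + 1 := Nat.lt_floor_add_one _
    have h7 : ((s + 1 : ℕ) : ℝ) ≤ sStarWeak V (m * (2 * s)) m ε α β := by exact_mod_cast h5
    push_cast at h7
    linarith

/-- The least sufficient supply is unbounded, and grows at least like `log m / ε`, already for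
matching instances, and even if the mechanism may be infeasible with small probability. -/
theorem result (ε α β : ℝ) (hε0 : 0 < ε) (hε : ε < 1) (hα0 : 0 < α) (hα : α ≤ 1 / 1000)
    (hβ0 : 0 < β) (hβ : β < 1) :
    (∃ m₀ : ℕ, ∀ m : ℕ, m₀ ≤ m → ∃ n : ℕ, n ≤ m ^ 2 ∧
      Real.log m / (2 * ε) ≤ sStarWeak UnitDemand n m ε α β ∧
      sStarWeak UnitDemand n m ε α β ≤ sStar UnitDemand n m ε α β) ∧
    (∃ m₀ : ℕ, ∀ m : ℕ, m₀ ≤ m → ∃ n : ℕ, n ≤ m ^ 2 ∧
      Real.log m / (2 * ε) ≤ sStarWeak GrossSubstitutes n m ε α β ∧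
      sStarWeak GrossSubstitutes n m ε α β ≤ sStar GrossSubstitutes n m ε α β) := by
  obtain ⟨N1, h1⟩ := lower UnitDemand (fun m b p => single_mem_UD b p) ε α β hε0 hε
    hα0 hα hβ0 hβ
  obtain ⟨N2, h2⟩ := lower GrossSubstitutes (fun m b p => single_mem_GS b p) ε α β hε0 hε
    hα0 hα hβ0 hβ
  refine ⟨⟨N1, fun m hm => ?_⟩, ⟨N2, fun m hm => ?_⟩⟩
  · obtain ⟨n, hn, h⟩ := h1 m hm
    exact ⟨n, hn, h, sStarWeak_le hε0.le hα0.le hβ0.le⟩
  · obtain ⟨n, hn, h⟩ := h2 m hm
    exact ⟨n, hn, h, sStarWeak_le hε0.le hα0.le hβ0.le⟩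

end Pool.Agent.Results.MP_a8f5d0_lc.LogSupply
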