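import Mathlib
import Pool.Agent.Helper555.JDPDefs
import Pool.Agent.Helper555.JDPLemmas
import Pool.Agent.Helper555.JDPBasic

set_option autoImplicit false

namespace Pool.Agent.Results.MP_a8f5d0_lc.ManyItems

open scoped BigOperators
open Classical
open Pool.Agent.Helper555.JDP

section

variable {n m s : ℕ}

/-- Item weights: the first `s` agents want the items of `X` only, the next `s` agents want every
item but half as much, and the remaining agents want nothing. -/
noncomputable def wt (s : ℕ) (X : Finset (Fin m)) (i : Fin n) (j : Fin m) : ℝ :=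
  if i.val < s then (if j ∈ X then 1 / (m : ℝ) else 0)
  else if i.val < 2 * s then 1 / (2 * (m : ℝ)) else 0

/-- The additive profile with these weights. -/
noncomputable def prof (s : ℕ) (X : Finset (Fin m)) : Fin n → Valuation m :=
  fun i S => ∑ j ∈ S, wt s X i j

theorem wt_nonneg (X : Finset (Fin m)) (i : Fin n) (j : Fin m) : 0 ≤ wt s X i j := by
  unfold wt
  split_ifs <;> positivity

theorem wt_le (X : Finset (Fin m)) (i : Fin n) (j : Fin m) : wt s X i j ≤ 1 / (m : ℝ) := by
  unfold wt
  have h0 : (0 : ℝ) ≤ 1 / (m : ℝ) := by positivity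
  have h1 : 1 / (2 * (m : ℝ)) = 1 / (m : ℝ) / 2 := by
    rw [one_div, one_div, mul_inv]; ring
  split_ifs
  · exact le_refl _
  · exact h0
  · rw [h1]; linarith
  · exact h0

theorem prof_mem (hm : 0 < m) (X : Finset (Fin m)) (i : Fin n) :
    prof s X i ∈ GrossSubstitutes m := by
  refine additive_mem_GS (wt s X i) (wt_nonneg X i) ?_
  calc ∑ j, wt s X i j ≤ ∑ _j : Fin m, 1 / (m : ℝ) := Finset.sum_le_sum fun j _ => wt_le X i j
    _ = 1 := by
        rw [Finset.sum_const, nsmul_eq_mul, Finset.card_univ, Fintype.card_fin]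
        have : (m : ℝ) ≠ 0 := by positivity
        field_simp

/-- Number of informed agents (the first `s`) who receive item `j`. -/
noncomputable def gg (s : ℕ) (ω : Allocation n m) (j : Fin m) : ℕ :=
  (Finset.univ.filter fun i : Fin n => i.val < s ∧ j ∈ ω i).card

/-- Number of uninformed agents (the next `s`) who receive item `j`. -/
noncomputable def aa (s : ℕ) (ω : Allocation n m) (j : Fin m) : ℕ :=
  (Finset.univ.filter fun i : Fin n => (s ≤ i.val ∧ i.val < 2 * s) ∧ j ∈ ω i).card

theorem card_low (h : s ≤ n) : (Finset.univ.filter fun i : Fin n => i.val < s).card = s := by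
  have : (Finset.univ.filter fun i : Fin n => i.val < s) =
      (Finset.univ : Finset (Fin s)).map (Fin.castLEEmb h) := by
    ext i
    simp only [Finset.mem_filter, Finset.mem_univ, true_and, Finset.mem_map]
    constructor
    · intro hi
      exact ⟨⟨i.val, hi⟩, by ext; simp⟩
    · rintro ⟨a, rfl⟩
      simp
  rw [this]; simp

theorem card_mid (h : 2 * s ≤ n) :
    (Finset.univ.filter fun i : Fin n => s ≤ i.val ∧ i.val < 2 * s).card = s := by
  have h1 := card_low (s := 2 * s) h
  have h2 := card_low (n := n) (s := s) (by omega)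
  have h3 : (Finset.univ.filter fun i : Fin n => i.val < 2 * s) =
      (Finset.univ.filter fun i : Fin n => i.val < s) ∪
      (Finset.univ.filter fun i : Fin n => s ≤ i.val ∧ i.val < 2 * s) := by
    ext i; simp only [Finset.mem_filter, Finset.mem_univ, true_and, Finset.mem_union]; omega
  have h4 : Disjoint (Finset.univ.filter fun i : Fin n => i.val < s)
      (Finset.univ.filter fun i : Fin n => s ≤ i.val ∧ i.val < 2 * s) := by
    rw [Finset.disjoint_left]
    intro i
    simp only [Finset.mem_filter, Finset.mem_univ, true_and]; omega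
  rw [h3, Finset.card_union_of_disjoint h4, h2] at h1
  omega

theorem welfare_prof (X : Finset (Fin m)) (ω : Allocation n m) :
    welfare (prof s X) ω =
      ∑ j : Fin m, ((if j ∈ X then (gg s ω j : ℝ) / m else 0) + (aa s ω j : ℝ) / (2 * m)) := by
  unfold welfare prof
  have h1 : ∀ i : Fin n, ∑ j ∈ ω i, wt s X i j = ∑ j : Fin m, if j ∈ ω i then wt s X i j else 0 := by
    intro i
    rw [Finset.sum_ite_mem, Finset.univ_inter]
  rw [Finset.sum_congr rfl fun i _ => h1 i, Finset.sum_comm]
  refine Finset.sum_congr rfl fun j _ => ?_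
  have h2 : ∀ i : Fin n, (if j ∈ ω i then wt s X i j else 0) =
      (if i.val < s ∧ j ∈ ω i then (if j ∈ X then 1 / (m : ℝ) else 0) else 0) +
      (if (s ≤ i.val ∧ i.val < 2 * s) ∧ j ∈ ω i then 1 / (2 * (m : ℝ)) else 0) := by
    intro i
    unfold wt
    by_cases hj : j ∈ ω i
    · by_cases h3 : i.val < s
      · have h4 : ¬ s ≤ i.val := by omega
        simp [hj, h3, h4]
      · have h4 : s ≤ i.val := by omega
        by_cases h5 : i.val < 2 * s
        · simp [hj, h3, h4, h5]
        · simp [hj, h3, h5]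
    · simp [hj]
  rw [Finset.sum_congr rfl fun i _ => h2 i, Finset.sum_add_distrib]
  congr 1
  · unfold gg
    rw [Finset.natCast_card_filter]
    by_cases hj : j ∈ X
    · simp only [hj, if_true]
      rw [Finset.sum_div]
      refine Finset.sum_congr rfl fun i _ => ?_
      split_ifs <;> simp
    · simp only [hj, if_false]
      refine Finset.sum_eq_zero fun i _ => ?_
      split_ifs <;> rfl
  · unfold aa
    rw [Finset.natCast_card_filter, Finset.sum_div]
    refine Finset.sum_congr rfl fun i _ => ?_
    split_ifs <;> simp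

theorem feas_sum (ω : Allocation n m) (hω : Feasible (fun _ => s) ω) (j : Fin m) :
    gg s ω j + aa s ω j ≤ s := by
  have h := hω j
  unfold gg aa
  rw [← Finset.card_union_of_disjoint]
  · refine le_trans (Finset.card_le_card ?_) h
    intro i
    simp only [Finset.mem_filter, Finset.mem_univ, true_and, Finset.mem_union]
    tauto
  · rw [Finset.disjoint_left]
    intro i
    simp only [Finset.mem_filter, Finset.mem_univ, true_and]
    omega

theorem aa_le (h : 2 * s ≤ n) (ω : Allocation n m) (j : Fin m) : aa s ω j ≤ s := by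
  unfold aa
  refine le_trans (Finset.card_le_card (t := Finset.univ.filter fun i : Fin n =>
    s ≤ i.val ∧ i.val < 2 * s) ?_) (card_mid h).le
  intro i
  simp only [Finset.mem_filter, Finset.mem_univ, true_and]
  tauto

theorem le_OPT_prof (h : 2 * s ≤ n) (X : Finset (Fin m)) :
    ∑ j : Fin m, (if j ∈ X then (s : ℝ) / m else (s : ℝ) / (2 * m)) ≤
      OPT (fun _ => s) (prof s X : Fin n → Valuation m) := by
  set ω₀ : Allocation n m := fun i => if i.val < s then X else
    if i.val < 2 * s then Finset.univ \ X else ∅ with hω₀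
  have hg : ∀ j ∈ X, gg s ω₀ j = s := by
    intro j hj
    unfold gg
    refine Eq.trans (congrArg Finset.card ?_) (card_low (n := n) (s := s) (by omega))
    ext i
    simp only [Finset.mem_filter, Finset.mem_univ, true_and, hω₀]
    constructor
    · exact fun h => h.1
    · intro hi; exact ⟨hi, by simp [hi, hj]⟩
  have ha : ∀ j, j ∉ X → aa s ω₀ j = s := by
    intro j hj
    unfold aa
    refine Eq.trans (congrArg Finset.card ?_) (card_mid h)
    ext i
    simp only [Finset.mem_filter, Finset.mem_univ, true_and, hω₀]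
    constructor
    · exact fun h => h.1
    · intro hi
      refine ⟨hi, ?_⟩
      have h1 : ¬ i.val < s := by omega
      simp [h1, hi.2, hj]
  have hfeas : Feasible (fun _ => s) ω₀ := by
    intro j
    by_cases hj : j ∈ X
    · refine le_trans (Finset.card_le_card (t := Finset.univ.filter fun i : Fin n =>
        i.val < s) ?_) (card_low (n := n) (s := s) (by omega)).le
      intro i
      simp only [Finset.mem_filter, Finset.mem_univ, true_and, hω₀]
      intro hi
      by_contra h1
      rw [if_neg h1] at hi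
      split_ifs at hi
      · simp [hj] at hi
      · simp at hi
    · refine le_trans (Finset.card_le_card (t := Finset.univ.filter fun i : Fin n =>
        s ≤ i.val ∧ i.val < 2 * s) ?_) (card_mid h).le
      intro i
      simp only [Finset.mem_filter, Finset.mem_univ, true_and, hω₀]
      intro hi
      split_ifs at hi with h1 h2
      · exact absurd hi hj
      · exact ⟨by omega, h2⟩
      · simp at hi
  have h1 := le_OPT (fun _ => s) (prof s X) ω₀ hfeas
  rw [welfare_prof] at h1
  refine le_trans (Finset.sum_le_sum fun j _ => ?_) h1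
  by_cases hj : j ∈ X
  · rw [if_pos hj, if_pos hj, hg j hj]
    have : (0 : ℝ) ≤ (aa s ω₀ j : ℝ) / (2 * m) := by positivity
    linarith
  · rw [if_neg hj, if_neg hj, ha j hj]
    linarith

/-- The items that few uninformed agents receive. -/
noncomputable def guess (s : ℕ) (ω : Allocation n m) : Finset (Fin m) :=
  Finset.univ.filter fun j => 2 * aa s ω j ≤ s

/-- At a successful outcome the bundles of the uninformed agents reveal most of `X`. -/
theorem reveal (hm : 0 < m) (hs : 0 < s) (h : 2 * s ≤ n) (hn : n ≤ 2 * s + 1) (α : ℝ)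
    (hα : α ≤ 1 / 1000) (X : Finset (Fin m)) (ω : Allocation n m)
    (hf : Feasible (fun _ => s) ω)
    (hw : OPT (fun _ => s) (prof s X : Fin n → Valuation m) - α * n ≤ welfare (prof s X) ω) :
    64 * (symmDiff X (guess s ω)).card ≤ m := by
  have hsR : (0 : ℝ) < s := by exact_mod_cast hs
  have hmR : (0 : ℝ) < m := by exact_mod_cast hm
  have h1 := le_OPT_prof (n := n) h X
  rw [welfare_prof] at hw
  have h2 : ∀ j : Fin m, ((if j ∈ X then (gg s ω j : ℝ) / m else 0) + (aa s ω j : ℝ) / (2 * m)) +
      (if j ∈ symmDiff X (guess s ω) then (s : ℝ) / (4 * m) else 0) ≤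
      (if j ∈ X then (s : ℝ) / m else (s : ℝ) / (2 * m)) := by
    intro j
    have h3 : (gg s ω j : ℝ) + aa s ω j ≤ s := by exact_mod_cast feas_sum ω hf j
    have h4 : (aa s ω j : ℝ) ≤ s := by exact_mod_cast aa_le h ω j
    have h5 : (0 : ℝ) ≤ aa s ω j := by positivity
    have h6 : (0 : ℝ) ≤ gg s ω j := by positivity
    have e1 : ∀ x : ℝ, x / (2 * m) = 2 * x / (4 * m) := by intro x; field_simp; ring
    have e2 : ∀ x : ℝ, x / (m : ℝ) = 4 * x / (4 * m) := by intro x; field_simp
    by_cases hj : j ∈ X
    · by_cases hg : 2 * aa s ω j ≤ s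
      · have : j ∉ symmDiff X (guess s ω) := by
          simp [Finset.mem_symmDiff, guess, hj, hg]
        rw [if_pos hj, if_neg this, if_pos hj, e1, e2, e2 s, ← add_div, add_zero]
        exact div_le_div_of_nonneg_right (by linarith) (by positivity)
      · have hmem : j ∈ symmDiff X (guess s ω) := by
          simp only [Finset.mem_symmDiff, guess, hj, Finset.mem_filter, Finset.mem_univ, true_and,
            true_and, hg]
          simp
        have hg' : (s : ℝ) < 2 * aa s ω j := by exact_mod_cast not_le.mp hg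
        rw [if_pos hj, if_pos hmem, if_pos hj, e1, e2, e2 s, ← add_div, ← add_div]
        exact div_le_div_of_nonneg_right (by linarith) (by positivity)
    · by_cases hg : 2 * aa s ω j ≤ s
      · have hmem : j ∈ symmDiff X (guess s ω) := by
          simp only [Finset.mem_symmDiff, guess, hj, Finset.mem_filter, Finset.mem_univ, true_and,
            hg]
          simp
        have hg' : 2 * (aa s ω j : ℝ) ≤ s := by exact_mod_cast hg
        rw [if_neg hj, if_pos hmem, if_neg hj, e1, e1 s, zero_add, ← add_div]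
        exact div_le_div_of_nonneg_right (by linarith) (by positivity)
      · have : j ∉ symmDiff X (guess s ω) := by
          simp [Finset.mem_symmDiff, guess, hj, hg]
        rw [if_neg hj, if_neg this, if_neg hj, e1, e1 s, zero_add, add_zero]
        exact div_le_div_of_nonneg_right (by linarith) (by positivity)
  have h3 := Finset.sum_le_sum fun j (_ : j ∈ Finset.univ) => h2 j
  rw [Finset.sum_add_distrib, Finset.sum_ite_mem, Finset.univ_inter, Finset.sum_const,
    nsmul_eq_mul] at h3
  have h4 : ((symmDiff X (guess s ω)).card : ℝ) * ((s : ℝ) / (4 * m)) ≤ α * n := by linarith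
  have h5 : (n : ℝ) ≤ 3 * s := by
    have : n ≤ 3 * s := by omega
    exact_mod_cast this
  have h6 : α * n ≤ 1 / 1000 * (3 * s) :=
    mul_le_mul hα h5 (by positivity) (by norm_num)
  have h7 : ((symmDiff X (guess s ω)).card : ℝ) * ((s : ℝ) / (4 * m)) =
      (s / (4 * m)) * ((symmDiff X (guess s ω)).card : ℝ) := by ring
  rw [h7] at h4
  have h8 : (s / (4 * (m : ℝ))) * ((symmDiff X (guess s ω)).card : ℝ) ≤
      (s / (4 * (m : ℝ))) * (12 * m / 1000) := by
    have : (s / (4 * (m : ℝ))) * (12 * m / 1000) = 1 / 1000 * (3 * s) := by field_simp; ring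
    linarith
  have h9 : ((symmDiff X (guess s ω)).card : ℝ) ≤ 12 * m / 1000 :=
    le_of_mul_le_mul_left h8 (by positivity)
  have h10 : (64 : ℝ) * ((symmDiff X (guess s ω)).card : ℝ) ≤ m := by linarith
  exact_mod_cast h10

theorem ball_m (m : ℕ) :
    ((Finset.univ.filter fun X : Finset (Fin m) => 64 * X.card ≤ m).card : ℝ) ≤
      (11 / 10 : ℝ) ^ m := by
  set K := m / 64 with hK
  have hfilter : (Finset.univ.filter fun X : Finset (Fin m) => 64 * X.card ≤ m) =
      Finset.univ.filter fun X : Finset (Fin m) => X.card ≤ K := by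
    ext X
    simp only [Finset.mem_filter, Finset.mem_univ, true_and, hK]
    omega
  rw [hfilter]
  have h1 := ball_bound (α := Fin m) (1 / 64) (by norm_num) (by norm_num) K
  rw [Fintype.card_fin] at h1
  set B : ℝ := ((Finset.univ.filter fun X : Finset (Fin m) => X.card ≤ K).card : ℝ) with hB
  have h2 : B ≤ 64 ^ K * (1 + 1 / 64) ^ m := by
    have h64 : (0 : ℝ) < 64 ^ K := by positivity
    have : B * (1 / 64) ^ K * 64 ^ K ≤ (1 + 1 / 64) ^ m * 64 ^ K :=
      mul_le_mul_of_nonneg_right h1 h64.le
    have h3 : B * (1 / 64) ^ K * 64 ^ K = B := by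
      rw [mul_assoc, ← mul_pow]; norm_num
    rw [h3] at this
    linarith
  have h3 : ((64 : ℝ) ^ K) ≤ (107 / 100) ^ m := by
    have h4 : (64 : ℝ) ≤ (107 / 100) ^ 64 := by norm_num
    calc ((64 : ℝ) ^ K) ≤ ((107 / 100 : ℝ) ^ 64) ^ K := pow_le_pow_left₀ (by norm_num) h4 K
      _ = (107 / 100 : ℝ) ^ (64 * K) := by rw [← pow_mul]
      _ ≤ (107 / 100 : ℝ) ^ m := pow_le_pow_right₀ (by norm_num) (by omega)
  calc B ≤ 64 ^ K * (1 + 1 / 64) ^ m := h2
    _ ≤ (107 / 100) ^ m * (1 + 1 / 64 : ℝ) ^ m := mul_le_mul_of_nonneg_right h3 (by positivity)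
    _ = (107 / 100 * (1 + 1 / 64 : ℝ)) ^ m := by rw [mul_pow]
    _ ≤ (11 / 10 : ℝ) ^ m := pow_le_pow_left₀ (by norm_num) (by norm_num) m

theorem not_suffices (ε α β : ℝ) (hα : α ≤ 1 / 1000) (n m s : ℕ) (hm : 0 < m) (hs : 0 < s)
    (h2 : 2 * s ≤ n) (hn : n ≤ 2 * s + 1)
    (hsmall : Real.exp (ε * s) * (11 / 10 : ℝ) ^ m < 2 ^ m * (1 - β)) :
    ¬ WeaklySuffices GrossSubstitutes n m ε α β s := by
  rintro ⟨M, hM⟩
  obtain ⟨hJP, hgood⟩ := hM (fun _ => s) (fun _ => le_refl s)
  set E : Finset (Fin m) → Set (Allocation n m) :=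
    fun X => {ω | 64 * (symmDiff X (guess s ω)).card ≤ m} with hE
  have hV : ∀ X : Finset (Fin m), ∀ i, (prof s X : Fin n → Valuation m) i ∈ GrossSubstitutes m :=
    fun X i => prof_mem hm X i
  have h1 : ∀ X, 1 - β ≤ Pr (M (fun _ => s) (prof s X)) (E X) := by
    intro X
    refine le_trans (hgood (prof s X) (hV X)) (Pr_mono _ ?_)
    intro ω hω
    exact reveal hm hs h2 hn α hα X ω hω.1 hω.2
  have hpriv : ∀ X, Pr (M (fun _ => s) (prof s X)) (E X) ≤
      Real.exp (ε * s) * Pr (M (fun _ => s) (prof s ∅)) (E X) := by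
    intro X
    have key := group_privacy hJP (Finset.univ.filter fun i : Fin n => i.val < s)
      (prof s X) (prof s ∅) (hV X) (hV ∅) (by
        intro k hk
        simp only [Finset.mem_filter, Finset.mem_univ, true_and] at hk
        funext S
        unfold prof wt
        simp [hk]) (E X) (by
        intro ω ω' hω h0
        have : guess s ω' = guess s ω := by
          unfold guess
          ext j
          simp only [Finset.mem_filter, Finset.mem_univ, true_and]
          have h3 : aa s ω' j = aa s ω j := by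
            unfold aa
            congr 1
            ext i
            simp only [Finset.mem_filter, Finset.mem_univ, true_and]
            refine and_congr_right fun hi => ?_
            rw [hω i (by
              simp only [Finset.mem_filter, Finset.mem_univ, true_and]
              omega)]
          rw [h3]
        simp only [hE, Set.mem_ofPred_eq] at h0 ⊢
        rw [this]
        exact h0)
    rw [card_low (by omega)] at key
    exact key
  have h3 : ∑ X : Finset (Fin m), Pr (M (fun _ => s) (prof s ∅)) (E X) ≤ (11 / 10 : ℝ) ^ m := by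
    rw [sum_Pr]
    refine le_trans (Finset.sum_le_sum
      (g := fun ω => ((M (fun _ => s) (prof s ∅)) ω).toReal * (11 / 10 : ℝ) ^ m)
      fun ω _ => ?_) (le_of_eq (by rw [← Finset.sum_mul, sum_toReal, one_mul]))
    refine mul_le_mul_of_nonneg_left ?_ ENNReal.toReal_nonneg
    refine le_trans ?_ (ball_m m)
    norm_cast
    refine Finset.card_le_card_of_injOn (fun X => symmDiff X (guess s ω)) ?_ ?_
    · intro X hX
      simp only [Finset.coe_filter, Finset.mem_univ, true_and, Set.mem_ofPred_eq, hE] at hX ⊢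
      exact hX
    · intro X _ Y _ hXY
      exact symmDiff_left_injective _ hXY
  have h4 : (2 : ℝ) ^ m * (1 - β) ≤ Real.exp (ε * s) * (11 / 10 : ℝ) ^ m := by
    calc (2 : ℝ) ^ m * (1 - β) = ∑ _X : Finset (Fin m), (1 - β) := by
          rw [Finset.sum_const, nsmul_eq_mul, Finset.card_univ, Fintype.card_finset,
            Fintype.card_fin]
          push_cast
          ring
      _ ≤ ∑ X : Finset (Fin m), Real.exp (ε * s) *
            Pr (M (fun _ => s) (prof s ∅)) (E X) :=
          Finset.sum_le_sum fun X _ => le_trans (h1 X) (hpriv X)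
      _ = Real.exp (ε * s) * ∑ X : Finset (Fin m), Pr (M (fun _ => s) (prof s ∅)) (E X) := by
          rw [Finset.mul_sum]
      _ ≤ Real.exp (ε * s) * (11 / 10 : ℝ) ^ m :=
          mul_le_mul_of_nonneg_left h3 (Real.exp_pos _).le
  linarith

end

/-- For gross substitutes valuations the least sufficient supply is linear in the number `n` of
agents as soon as there are at least as many items as agents, even if the mechanism may be
infeasible with small probability. -/
theorem result (ε α β : ℝ) (hε0 : 0 < ε) (hε : ε < 1) (hα0 : 0 < α) (hα : α ≤ 1 / 1000)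
    (hβ0 : 0 < β) (hβ : β < 1) :
    ∃ m₀ : ℕ, ∀ m : ℕ, m₀ ≤ m → ∀ n : ℕ, 2 ≤ n → n ≤ m →
      n < 2 * sStarWeak GrossSubstitutes n m ε α β ∧
      sStarWeak GrossSubstitutes n m ε α β ≤ sStar GrossSubstitutes n m ε α β ∧
      sStar GrossSubstitutes n m ε α β ≤ n := by
  have hb : 0 < 1 - β := by linarith
  have hlim : Filter.Tendsto (fun m : ℕ => (91 / 100 : ℝ) ^ m) Filter.atTop (nhds 0) :=
    tendsto_pow_atTop_nhds_zero_of_lt_one (by norm_num) (by norm_num)
  obtain ⟨m₀, hm₀⟩ := Filter.eventually_atTop.mp (hlim.eventually (gt_mem_nhds hb))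
  refine ⟨max m₀ 1, fun m hm n hn hnm => ⟨?_, sStarWeak_le hε0.le hα0.le hβ0.le,
    sStar_le hε0.le hα0.le hβ0.le⟩⟩
  have h1 := hm₀ m (le_trans (le_max_left _ _) hm)
  have hmpos : 0 < m := le_trans (le_max_right _ _) hm
  have hsmall : Real.exp (ε * (n / 2 : ℕ)) * (11 / 10 : ℝ) ^ m < 2 ^ m * (1 - β) := by
    have h2 : ε * ((n / 2 : ℕ) : ℝ) ≤ (m : ℝ) * (1 / 2) := by
      have h3 : ((n / 2 : ℕ) : ℝ) ≤ (m : ℝ) / 2 := by
        have : 2 * (n / 2) ≤ m := by omega
        have h4 : (2 : ℝ) * ((n / 2 : ℕ) : ℝ) ≤ m := by exact_mod_cast this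
        linarith
      have h5 : (0 : ℝ) ≤ ((n / 2 : ℕ) : ℝ) := by positivity
      nlinarith
    have h6 : Real.exp (1 / 2) ≤ 165 / 100 := by
      have h7 : Real.exp (1 / 2) ^ 2 ≤ (165 / 100) ^ 2 := by
        rw [← Real.exp_nat_mul]
        have := Real.exp_one_lt_d9
        have h8 : ((2 : ℕ) : ℝ) * (1 / 2) = 1 := by norm_num
        rw [h8]
        linarith [this, (by norm_num : (2.7182818286 : ℝ) ≤ (165 / 100) ^ 2)]
      exact le_of_sq_le_sq h7 (by norm_num)
    calc Real.exp (ε * (n / 2 : ℕ)) * (11 / 10 : ℝ) ^ m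
        ≤ Real.exp ((m : ℝ) * (1 / 2)) * (11 / 10 : ℝ) ^ m :=
          mul_le_mul_of_nonneg_right (Real.exp_le_exp.mpr h2) (by positivity)
      _ = (Real.exp (1 / 2)) ^ m * (11 / 10 : ℝ) ^ m := by rw [Real.exp_nat_mul]
      _ ≤ (165 / 100 : ℝ) ^ m * (11 / 10 : ℝ) ^ m :=
          mul_le_mul_of_nonneg_right (pow_le_pow_left₀ (Real.exp_pos _).le h6 m) (by positivity)
      _ = (165 / 100 * (11 / 10) : ℝ) ^ m := by rw [mul_pow]
      _ ≤ (2 * (91 / 100) : ℝ) ^ m := pow_le_pow_left₀ (by norm_num) (by norm_num) m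
      _ = 2 ^ m * (91 / 100 : ℝ) ^ m := by rw [mul_pow]
      _ < 2 ^ m * (1 - β) := mul_lt_mul_of_pos_left h1 (by positivity)
  have hns := not_suffices ε α β hα n m (n / 2) hmpos (by omega) (by omega) (by omega) hsmall
  have := lt_sStarWeak hε0.le hα0.le hβ0.le hns
  omega

end Pool.Agent.Results.MP_a8f5d0_lc.ManyItems
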